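import Pool.Agent.H15.FLC.Targets

/-!
MP_c62aed_lc, cutting planes for random CNFs: row LXC (exceptions of a chain).
-/

set_option autoImplicit false

namespace Pool.Agent.H50.FL2

open Finset
open Pool.Agent.H15.FLC
open Pool.Agent.H53.MC (tau)

section
variable {n k m : ℕ} (H : Fin m → Half n k)

theorem insC_congr {A : Finset (Fin n)} {x y : Fin n → Bool} (h : ∀ a ∈ A, y a = x a)
    {c : Fin m} (hc : InsC H (A, y) c) : InsC H (A, x) c := by
  refine ⟨hc.1, fun i hi => ?_⟩
  have h1 := h _ (hc.1 hi)
  have h2 := hc.2 i hi
  intro h3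
  exact h2 (h1.trans h3)

theorem kerC_congr {r w : ℕ} {B : Finset (Fin n → Bool)} {A : Finset (Fin n)}
    {x y : Fin n → Bool} (h : ∀ a ∈ A, y a = x a) (hc : (A, y) ∈ KerC H r w B) :
    (A, x) ∈ KerC H r w B := by
  refine ⟨hc.1, fun T hT hT' => ?_⟩
  obtain ⟨c, hc1, hc2⟩ := hc.2 T hT hT'
  exact ⟨c, hc1, insC_congr H h hc2⟩

open Classical in
/-- the assignments of `R` which agree with `x` on `A` -/
noncomputable def RA (R : Finset (Fin n → Bool)) (A : Finset (Fin n)) (x : Fin n → Bool) :
    Finset (Fin n → Bool) := R.filter (fun y => ∀ a ∈ A, y a = x a)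

theorem card_agree (A : Finset (Fin n)) (x : Fin n → Bool) (R : Finset (Fin n → Bool)) :
    (RA R A x).card ≤ 2 ^ (n - A.card) := by
  classical
  have h1 : (RA R A x).card ≤ (univ : Finset ({a : Fin n // a ∉ A} → Bool)).card := by
    apply card_le_card_of_injOn (fun y a => y a.1) (fun _ _ => mem_coe.2 (mem_univ _))
    intro y hy z hz hyz
    have hy' := (mem_filter.1 (mem_coe.1 hy)).2
    have hz' := (mem_filter.1 (mem_coe.1 hz)).2
    funext a
    by_cases ha : a ∈ A
    · rw [hy' a ha, hz' a ha]
    · exact congrFun hyz ⟨a, ha⟩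
  refine h1.trans ?_
  rw [card_univ, Fintype.card_fun, Fintype.card_bool]
  apply Nat.pow_le_pow_right (by norm_num)
  have h2 : Fintype.card {a : Fin n // a ∉ A} = n - A.card := by
    rw [Fintype.card_subtype_compl, Fintype.card_fin, Fintype.card_coe]
  exact h2.le

theorem mem_cntC {d : ℕ} {A : Finset (Fin n)} {x z : Fin n → Bool} (h : ∀ a ∈ A, z a = x a)
    {A' : Finset (Fin n)} (hA : A ⊆ A') {c : Fin m} (hc : (H c).1.1 ⊆ A ∧
      ((H c).1.1.filter fun i => x i = (H c).2 i).card ≤ d) :
    (H c).1.1 ⊆ A' ∧ ((H c).1.1.filter fun i => z i = (H c).2 i).card ≤ d := by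
  refine ⟨hc.1.trans hA, ?_⟩
  have h1 : ((H c).1.1.filter fun i => z i = (H c).2 i) =
      (H c).1.1.filter fun i => x i = (H c).2 i := by
    apply filter_congr
    intro i hi
    rw [h i (hc.1 hi)]
  rw [h1]
  exact hc.2

theorem cntC_mono {d : ℕ} {A A' : Finset (Fin n)} {x z : Fin n → Bool}
    (h : ∀ a ∈ A, z a = x a) (hA : A ⊆ A') : cntC H d A x ≤ cntC H d A' z := by
  unfold cntC
  apply card_le_card
  intro c hc
  rw [mem_filter] at hc ⊢
  exact ⟨hc.1, mem_cntC H h hA hc.2⟩

theorem cntC_lt {d : ℕ} {A : Finset (Fin n)} {x z : Fin n → Bool} (h : ∀ a ∈ A, z a = x a)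
    {c : Fin m} (hc : ¬ (H c).1.1 ⊆ A) (hd : ((H c).1.1 \ A).card ≤ d)
    (hx : ∀ i ∈ (H c).1.1, i ∈ A → x i ≠ (H c).2 i) :
    cntC H d A x + 1 ≤ cntC H d (A ∪ (H c).1.1) z := by
  unfold cntC
  rw [Nat.add_one_le_iff]
  apply card_lt_card
  refine ⟨fun i hi => ?_, fun h' => hc ?_⟩
  · rw [mem_filter] at hi ⊢
    exact ⟨hi.1, mem_cntC H h subset_union_left hi.2⟩
  · have h1 : ((H c).1.1.filter fun i => z i = (H c).2 i).card ≤ d := by
      refine (card_le_card ?_).trans hd
      intro i hi
      rw [mem_filter] at hi
      rw [mem_sdiff]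
      refine ⟨hi.1, fun hiA => hx i hi.1 hiA ?_⟩
      rw [← h i hiA]
      exact hi.2
    have := h' (mem_filter.2 ⟨mem_univ c, subset_union_right, h1⟩)
    exact (mem_filter.1 this).2.1

/-- the main induction -/
theorem lx_main (r w d s₀ : ℕ) (hr : 1 ≤ r) (h1 : H2 H w d s₀)
    (𝒞 : Set (Finset (Fin n → Bool))) (hC : IsChain (· ⊆ ·) 𝒞) (R : Finset (Fin n → Bool))
    (hR : ∀ y ∈ R, ∃ B ∈ 𝒞, y ∈ ErrC H r w B) :
    ∀ (N : ℕ) (A : Finset (Fin n)) (x : Fin n → Bool) (p q : ℕ), n ≤ A.card + N →
      w ≤ A.card + p * d → s₀ ≤ cntC H d A x + q →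
      (RA R A x).card ≤ r ^ p * 2 ^ (d * q) * 2 ^ (n - w) := by
  classical
  intro N
  induction N with
  | zero =>
    intro A x p q hN hp hq
    have hA : A.card ≤ n := by
      have := card_le_univ A
      rwa [Fintype.card_fin] at this
    have h2 : (RA R A x).card ≤ 2 ^ (n - A.card) := card_agree A x R
    have h3 : n - A.card = 0 := by omega
    rw [h3, pow_zero] at h2
    refine h2.trans ?_
    exact Nat.one_le_iff_ne_zero.2 (by positivity)
  | succ N ih =>
    intro A x p q hN hp hq
    by_cases hw : w ≤ A.card
    · refine (card_agree A x R).trans ?_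
      calc 2 ^ (n - A.card) ≤ 1 * 1 * 2 ^ (n - w) := by
            rw [one_mul, one_mul]
            exact Nat.pow_le_pow_right (by norm_num) (by omega)
        _ ≤ _ := by
            gcongr
            · exact Nat.one_le_pow _ _ hr
            · exact Nat.one_le_pow _ _ (by norm_num)
    · push Not at hw
      have hpiece : ∀ (A' : Finset (Fin n)) (S : Finset (Fin n → Bool)) (p' q' : ℕ),
          A.card + 1 ≤ A'.card → S ⊆ R → (∀ y ∈ S, ∀ z ∈ S, ∀ a ∈ A', y a = z a) →
          w ≤ A'.card + p' * d → (∀ z ∈ S, s₀ ≤ cntC H d A' z + q') →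
          S.card ≤ r ^ p' * 2 ^ (d * q') * 2 ^ (n - w) := by
        intro A' S p' q' hA' hS hSS hp' hq'
        rcases S.eq_empty_or_nonempty with rfl | ⟨z, hz⟩
        · rw [card_empty]; exact Nat.zero_le _
        · have h3 : S ⊆ RA R A' z := by
            intro y hy
            exact mem_filter.2 ⟨hS hy, fun a ha => hSS y hy z hz a ha⟩
          exact (card_le_card h3).trans (ih A' z p' q' (by omega) hp' (hq' z hz))
      by_cases hcl : ∃ c : Fin m, ¬ (H c).1.1 ⊆ A ∧ ((H c).1.1 \ A).card ≤ d ∧
          ∀ i ∈ (H c).1.1, i ∈ A → x i ≠ (H c).2 i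
      · obtain ⟨j, hj, hjd, hjx⟩ := hcl
        have hA' : A.card + 1 ≤ (A ∪ (H j).1.1).card := by
          rw [Nat.add_one_le_iff]
          apply card_lt_card
          exact ⟨subset_union_left, fun h => hj (subset_union_right.trans h)⟩
        have hcard : (A ∪ (H j).1.1).card ≤ w + k := by
          have := card_union_le A (H j).1.1
          have := (H j).1.2
          omega
        have hc1 := cntC_lt H (fun a _ => rfl : ∀ a ∈ A, x a = x a) hj hjd hjx
        have hc2 := h1 _ hcard x
        have hq1 : 1 ≤ q := by omega
        obtain ⟨q', rfl⟩ := Nat.exists_eq_add_of_le' hq1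
        have hmap := card_le_mul_card_image_of_maps_to
          (f := fun (y : Fin n → Bool) (a : {a : Fin n // a ∈ (H j).1.1 \ A}) => y a.1)
          (s := RA R A x) (t := univ) (fun _ _ => mem_univ _)
          (r ^ p * 2 ^ (d * q') * 2 ^ (n - w)) (by
            intro g _
            apply hpiece (A ∪ (H j).1.1) _ p q' hA'
            · intro y hy
              exact (mem_filter.1 (mem_filter.1 hy).1).1
            · intro y hy z hz a ha
              rw [mem_filter] at hy hz
              have hy1 := (mem_filter.1 hy.1).2
              have hz1 := (mem_filter.1 hz.1).2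
              by_cases haA : a ∈ A
              · rw [hy1 a haA, hz1 a haA]
              · have hat : a ∈ (H j).1.1 \ A := by
                  rcases mem_union.1 ha with h | h
                  · exact absurd h haA
                  · exact mem_sdiff.2 ⟨h, haA⟩
                have h5 := congrFun (hy.2.trans hz.2.symm) ⟨a, hat⟩
                exact h5
            · omega
            · intro z hz
              rw [mem_filter] at hz
              have hz1 := (mem_filter.1 hz.1).2
              have hc3 := cntC_lt H hz1 hj hjd hjx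
              omega)
        refine hmap.trans ?_
        rw [card_univ, Fintype.card_fun, Fintype.card_bool, Fintype.card_coe]
        calc r ^ p * 2 ^ (d * q') * 2 ^ (n - w) * 2 ^ ((H j).1.1 \ A).card
            ≤ r ^ p * 2 ^ (d * q') * 2 ^ (n - w) * 2 ^ d := by
              gcongr
              norm_num
          _ = r ^ p * 2 ^ (d * (q' + 1)) * 2 ^ (n - w) := by ring
      · push Not at hcl
        rcases (RA R A x).eq_empty_or_nonempty with h0 | ⟨y0, hy0⟩
        · rw [h0, card_empty]; exact Nat.zero_le _
        · -- the members of the chain whose kernel misses `(A, x)`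
          have hmiss : ∀ y ∈ RA R A x, ∃ B ∈ 𝒞, y ∈ ErrC H r w B ∧ (A, x) ∉ KerC H r w B := by
            intro y hy
            obtain ⟨hyR, hyA⟩ := mem_filter.1 hy
            obtain ⟨B, hB, hyB⟩ := hR y hyR
            refine ⟨B, hB, hyB, fun hk => ?_⟩
            have h3 := (mem_filter.1 hyB).2 A hw
            exact h3 (kerC_congr H (fun a ha => (hyA a ha).symm) hk)
          let 𝒟 : Finset (Finset (Fin n → Bool)) :=
            univ.filter (fun B => B ∈ 𝒞 ∧ (A, x) ∉ KerC H r w B)
          have hD : 𝒟.Nonempty := by
            obtain ⟨B, hB, _, hk⟩ := hmiss y0 hy0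
            exact ⟨B, mem_filter.2 ⟨mem_univ _, hB, hk⟩⟩
          obtain ⟨B, hB, hmax⟩ := exists_max_image 𝒟 card hD
          obtain ⟨_, hBC, hBk⟩ := mem_filter.1 hB
          have hsub : ∀ y ∈ RA R A x, y ∈ B := by
            intro y hy
            obtain ⟨B2, hB2, hy2, hk2⟩ := hmiss y hy
            have h3 := hmax B2 (mem_filter.2 ⟨mem_univ _, hB2, hk2⟩)
            have h4 : B2 ⊆ B := by
              rcases hC.total hB2 hBC with h | h
              · exact h
              · exact (eq_of_subset_of_card_le h h3).symm.subset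
            exact h4 (mem_filter.1 hy2).1
          have hT : ∃ T : Finset (Fin m), T.card ≤ r ∧ CovC H T B ∧
              ∀ c ∈ T, ¬ InsC H (A, x) c := by
            by_contra hno
            push Not at hno
            exact hBk ⟨hw, fun T h3 h4 => by
              obtain ⟨c, hc, hc'⟩ := hno T h3 h4
              exact ⟨c, hc, hc'⟩⟩
          obtain ⟨T, hTr, hTc, hTn⟩ := hT
          have hp1 : 1 ≤ p := by
            rcases Nat.eq_zero_or_pos p with h | h
            · subst h; omega
            · exact h
          obtain ⟨p', rfl⟩ := Nat.exists_eq_add_of_le' hp1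
          have hcov : RA R A x ⊆
              T.biUnion (fun c => (RA R A x).filter (fun y => Violates (H c) y)) := by
            intro y hy
            obtain ⟨c, hc, hv⟩ := hTc y (hsub y hy)
            exact mem_biUnion.2 ⟨c, hc, mem_filter.2 ⟨hy, hv⟩⟩
          have hbound : ∀ c ∈ T, ((RA R A x).filter (fun y => Violates (H c) y)).card ≤
              r ^ p' * 2 ^ (d * q) * 2 ^ (n - w) := by
            intro c hc
            rcases ((RA R A x).filter (fun y => Violates (H c) y)).eq_empty_or_nonempty with
              h | ⟨z, hz⟩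
            · rw [h, card_empty]; exact Nat.zero_le _
            · have hz1 := mem_filter.1 hz
              have hz2 := (mem_filter.1 hz1.1).2
              have hnot : ¬ (H c).1.1 ⊆ A := by
                intro hs
                exact hTn c hc (insC_congr H hz2 ⟨hs, hz1.2⟩)
              have hcx : ∀ i ∈ (H c).1.1, i ∈ A → x i ≠ (H c).2 i := by
                intro i hi hiA
                rw [← hz2 i hiA]
                exact hz1.2 i hi
              have h5 : d < ((H c).1.1 \ A).card := by
                by_contra hle
                push Not at hle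
                obtain ⟨i, hi, hiA, hix⟩ := hcl c hnot hle
                exact hcx i hi hiA hix
              have h6 : A.card + (d + 1) ≤ (A ∪ (H c).1.1).card := by
                have h7 : (A ∪ (H c).1.1).card = A.card + ((H c).1.1 \ A).card := by
                  rw [← union_sdiff_self_eq_union]
                  exact card_union_of_disjoint disjoint_sdiff
                omega
              apply hpiece (A ∪ (H c).1.1) _ p' q (by omega)
              · intro y hy
                exact (mem_filter.1 (mem_filter.1 hy).1).1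
              · intro y hy z hz a ha
                rw [mem_filter] at hy hz
                have hy1 := (mem_filter.1 hy.1).2
                have hz1 := (mem_filter.1 hz.1).2
                rcases mem_union.1 ha with h | h
                · rw [hy1 a h, hz1 a h]
                · have h8 := hy.2 a h
                  have h9 := hz.2 a h
                  rw [← Bool.eq_not] at h8 h9
                  rw [h8, h9]
              · have : (p' + 1) * d = p' * d + d := by ring
                omega
              · intro y hy
                rw [mem_filter] at hy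
                have hy1 := (mem_filter.1 hy.1).2
                have := cntC_mono H (d := d) hy1
                  (subset_union_left (s₁ := A) (s₂ := (H c).1.1))
                omega
          calc (RA R A x).card
              ≤ (T.biUnion (fun c => (RA R A x).filter (fun y => Violates (H c) y))).card :=
                card_le_card hcov
            _ ≤ ∑ c ∈ T, ((RA R A x).filter (fun y => Violates (H c) y)).card := card_biUnion_le
            _ ≤ ∑ c ∈ T, r ^ p' * 2 ^ (d * q) * 2 ^ (n - w) := sum_le_sum hbound
            _ = T.card * (r ^ p' * 2 ^ (d * q) * 2 ^ (n - w)) := by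
                rw [sum_const, smul_eq_mul]
            _ ≤ r * (r ^ p' * 2 ^ (d * q) * 2 ^ (n - w)) := Nat.mul_le_mul_right _ hTr
            _ = r ^ (p' + 1) * 2 ^ (d * q) * 2 ^ (n - w) := by ring

end

theorem pf_LXC : T_LXC := by
  classical
  intro n k m H r w d s₀ hr hd hw h1 𝒞 hC
  let R : Finset (Fin n → Bool) := univ.filter (fun x => ∃ B ∈ 𝒞, x ∈ ErrC H r w B)
  have h2 := lx_main H r w d s₀ hr h1 𝒞 hC R (fun y hy => (mem_filter.1 hy).2) n ∅
    (fun _ => false) (w / d + 1) s₀ (by omega) (by
      rw [card_empty, zero_add]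
      have h5 := Nat.div_add_mod w d
      have h6 := Nat.mod_lt w (by omega : 0 < d)
      have h7 : (w / d + 1) * d = d * (w / d) + d := by ring
      omega) (by omega)
  have h3 : Nat.card {x : Fin n → Bool // ∃ B ∈ 𝒞, x ∈ ErrC H r w B} = R.card := by
    rw [Nat.card_eq_fintype_card, Fintype.card_subtype]
  have h4 : RA R ∅ (fun _ => false) = R := by
    unfold RA
    apply filter_true_of_mem
    intro y _ a ha
    exact absurd ha (notMem_empty a)
  rw [h4] at h2
  rw [h3]
  exact h2

end Pool.Agent.H50.FL2
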